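import Pool.Agent.H171R2.RupCore

/-!
# Certificates for triple systems on ten points

`R a b c` says that the triple `abc` is an edge. Every five points contain an edge, and all edges
inside five points have a common point.
-/

set_option autoImplicit false

namespace Pool.Agent.W2helper53.KH

open Pool.Agent.H171R2.Rup

/-- a triple system on `0, ..., 9` -/
structure Model where
  R : ℕ → ℕ → ℕ → Prop
  s1 : ∀ a b c, R a b c → R b a c
  s2 : ∀ a b c, R a b c → R a c b
  pos : ∀ a b c d e, a < b → b < c → c < d → d < e → e < 10 →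
    R a b c ∨ R a b d ∨ R a b e ∨ R a c d ∨ R a c e ∨ R a d e ∨ R b c d ∨ R b c e ∨ R b d e ∨
      R c d e
  neg : ∀ a b c d e, a < b → b < c → c < d → d < e → e < 10 →
    (¬ R b c d ∧ ¬ R b c e ∧ ¬ R b d e ∧ ¬ R c d e) ∨
    (¬ R a c d ∧ ¬ R a c e ∧ ¬ R a d e ∧ ¬ R c d e) ∨
    (¬ R a b d ∧ ¬ R a b e ∧ ¬ R a d e ∧ ¬ R b d e) ∨
    (¬ R a b c ∧ ¬ R a b e ∧ ¬ R a c e ∧ ¬ R b c e) ∨
    (¬ R a b c ∧ ¬ R a b d ∧ ¬ R a c d ∧ ¬ R b c d)

/-- code of a triple -/
def cd (a b c : ℕ) : ℕ := 100 * a + 10 * b + c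

variable (M : Model)

def val (v : ℕ) : Prop := M.R (v / 100) (v / 10 % 10) (v % 10)

theorem val_cd {a b c : ℕ} (hb : b < 10) (hc : c < 10) : val M (cd a b c) ↔ M.R a b c := by
  unfold val cd
  rw [show (100 * a + 10 * b + c) / 100 = a by omega,
    show (100 * a + 10 * b + c) / 10 % 10 = b by omega, show (100 * a + 10 * b + c) % 10 = c by omega]

theorem testBit_mask : ∀ (l : List ℕ) (v : ℕ), v ∈ l → (mask l).testBit v = true
  | [], v, h => by simp at h
  | u :: us, v, h => by
    change ((Nat.shiftLeft 1 u) ||| (mask us)).testBit v = true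
    rw [Nat.testBit_lor, Bool.or_eq_true]
    rcases List.mem_cons.1 h with rfl | h
    · left
      rw [testBit_shl1]
      simp
    · right
      exact testBit_mask us v h

theorem valid_pos {val : ℕ → Prop} {ps ns : List ℕ} {v : ℕ} (h : v ∈ ps) (hv : val v) :
    Valid val (mask ps, mask ns) := ⟨v, Or.inl ⟨testBit_mask _ _ h, hv⟩⟩

theorem valid_neg {val : ℕ → Prop} {ps ns : List ℕ} {v : ℕ} (h : v ∈ ns) (hv : ¬ val v) :
    Valid val (mask ps, mask ns) := ⟨v, Or.inr ⟨testBit_mask _ _ h, hv⟩⟩

/-- the axioms -/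
inductive Ax where
  | pos (a b c d e : ℕ)
  | neg (a b c d e : ℕ) (ns : List ℕ)
  | unit (v : ℕ)
  | lin (p q r s u v : ℕ)

def lt5 (a b c d e : ℕ) : Bool :=
  Nat.blt a b && (Nat.blt b c && (Nat.blt c d && (Nat.blt d e && Nat.blt e 10)))

def mem (v : ℕ) : List ℕ → Bool
  | [] => false
  | u :: us => Nat.beq v u || mem v us

def anyIn (l : List ℕ) : List ℕ → Bool
  | [] => false
  | u :: us => mem u l || anyIn l us

theorem of_mem {v : ℕ} : ∀ {l : List ℕ}, mem v l = true → v ∈ l
  | [], h => by simp [mem] at h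
  | u :: us, h => by
    rw [mem, Bool.or_eq_true] at h
    rcases h with h | h
    · rw [Nat.eq_of_beq_eq_true h]; exact List.mem_cons_self
    · exact List.mem_cons_of_mem _ (of_mem h)

theorem of_anyIn {l : List ℕ} : ∀ {ns : List ℕ}, anyIn l ns = true → ∃ v ∈ ns, v ∈ l
  | [], h => by simp [anyIn] at h
  | u :: us, h => by
    rw [anyIn, Bool.or_eq_true] at h
    rcases h with h | h
    · exact ⟨u, List.mem_cons_self, of_mem h⟩
    · obtain ⟨v, h1, h2⟩ := of_anyIn h
      exact ⟨v, List.mem_cons_of_mem _ h1, h2⟩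

def clause : Ax → List ℕ × List ℕ
  | .pos a b c d e => ([cd a b c, cd a b d, cd a b e, cd a c d, cd a c e, cd a d e, cd b c d,
      cd b c e, cd b d e, cd c d e], [])
  | .neg _ _ _ _ _ ns => ([], ns)
  | .unit v => ([v], [])
  | .lin _ _ _ _ u v => ([], [u, v])

def check (units : List ℕ) (ln : Bool) : Ax → Bool
  | .pos a b c d e => lt5 a b c d e
  | .neg a b c d e ns => lt5 a b c d e &&
      (anyIn [cd b c d, cd b c e, cd b d e, cd c d e] ns &&
      (anyIn [cd a c d, cd a c e, cd a d e, cd c d e] ns &&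
      (anyIn [cd a b d, cd a b e, cd a d e, cd b d e] ns &&
      (anyIn [cd a b c, cd a b e, cd a c e, cd b c e] ns &&
      anyIn [cd a b c, cd a b d, cd a c d, cd b c d] ns))))
  | .unit v => mem v units
  | .lin p q r s u v => ln && (Nat.blt p q && (Nat.blt q 10 && (Nat.blt r 10 && (Nat.blt s 10 &&
      (!Nat.beq r s && (!Nat.beq r p && (!Nat.beq r q && (!Nat.beq s p && (!Nat.beq s q &&
      (mem u [cd r p q, cd p r q, cd p q r] && mem v [cd s p q, cd p s q, cd p q s]))))))))))

theorem of_lt5 {a b c d e : ℕ} (h : lt5 a b c d e = true) :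
    a < b ∧ b < c ∧ c < d ∧ d < e ∧ e < 10 := by
  simp only [lt5, Bool.and_eq_true, Nat.blt_eq] at h
  exact h

theorem check_valid (units : List ℕ) (ln : Bool) (hu : ∀ v ∈ units, val M v)
    (hl : ln = true → ∀ p q r s, p < q → q < 10 → r < 10 → s < 10 → r ≠ s → r ≠ p → r ≠ q →
      s ≠ p → s ≠ q → ¬ (M.R p q r ∧ M.R p q s)) (x : Ax) (h : check units ln x = true) :
    Valid (val M) (mask (clause x).1, mask (clause x).2) := by
  cases x with
  | pos a b c d e =>
    obtain ⟨h1, h2, h3, h4, h5⟩ := of_lt5 h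
    have hP := M.pos a b c d e h1 h2 h3 h4 h5
    have e1 : ∀ {x y z : ℕ}, y < 10 → z < 10 → M.R x y z → val M (cd x y z) :=
      fun hy hz h => (val_cd M hy hz).2 h
    rcases hP with hP | hP | hP | hP | hP | hP | hP | hP | hP | hP <;>
      exact valid_pos (by simp [clause]) (e1 (by omega) (by omega) hP)
  | neg a b c d e ns =>
    simp only [check, Bool.and_eq_true] at h
    obtain ⟨h0, h6, h7, h8, h9, h10⟩ := h
    obtain ⟨h1, h2, h3, h4, h5⟩ := of_lt5 h0
    have e1 : ∀ {x y z : ℕ}, y < 10 → z < 10 → ¬ M.R x y z → ¬ val M (cd x y z) :=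
      fun hy hz h h' => h ((val_cd M hy hz).1 h')
    have key : ∀ {l : List ℕ}, anyIn l ns = true → (∀ v ∈ l, ¬ val M v) →
        Valid (val M) (mask (clause (.neg a b c d e ns)).1, mask (clause (.neg a b c d e ns)).2) := by
      intro l hl1 hl2
      obtain ⟨v, hv1, hv2⟩ := of_anyIn hl1
      exact valid_neg (ns := ns) hv1 (hl2 v hv2)
    rcases M.neg a b c d e h1 h2 h3 h4 h5 with ⟨k1, k2, k3, k4⟩ | ⟨k1, k2, k3, k4⟩ |
      ⟨k1, k2, k3, k4⟩ | ⟨k1, k2, k3, k4⟩ | ⟨k1, k2, k3, k4⟩
    · refine key h6 ?_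
      simp only [List.mem_cons, List.not_mem_nil, or_false, forall_eq_or_imp, forall_eq]
      exact ⟨e1 (by omega) (by omega) k1, e1 (by omega) (by omega) k2, e1 (by omega) (by omega) k3,
        e1 (by omega) (by omega) k4⟩
    · refine key h7 ?_
      simp only [List.mem_cons, List.not_mem_nil, or_false, forall_eq_or_imp, forall_eq]
      exact ⟨e1 (by omega) (by omega) k1, e1 (by omega) (by omega) k2, e1 (by omega) (by omega) k3,
        e1 (by omega) (by omega) k4⟩
    · refine key h8 ?_
      simp only [List.mem_cons, List.not_mem_nil, or_false, forall_eq_or_imp, forall_eq]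
      exact ⟨e1 (by omega) (by omega) k1, e1 (by omega) (by omega) k2, e1 (by omega) (by omega) k3,
        e1 (by omega) (by omega) k4⟩
    · refine key h9 ?_
      simp only [List.mem_cons, List.not_mem_nil, or_false, forall_eq_or_imp, forall_eq]
      exact ⟨e1 (by omega) (by omega) k1, e1 (by omega) (by omega) k2, e1 (by omega) (by omega) k3,
        e1 (by omega) (by omega) k4⟩
    · refine key h10 ?_
      simp only [List.mem_cons, List.not_mem_nil, or_false, forall_eq_or_imp, forall_eq]
      exact ⟨e1 (by omega) (by omega) k1, e1 (by omega) (by omega) k2, e1 (by omega) (by omega) k3,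
        e1 (by omega) (by omega) k4⟩
  | unit v =>
    exact valid_pos (by simp [clause]) (hu v (of_mem h))
  | lin p q r s u v =>
    simp only [check, Bool.and_eq_true, Nat.blt_eq, Bool.not_eq_true'] at h
    obtain ⟨h0, h1, h2, h3, h4, h5, h6, h7, h8, h9, h10, h11⟩ := h
    have ne : ∀ {x y : ℕ}, Nat.beq x y = false → x ≠ y := fun h => Nat.ne_of_beq_eq_false h
    have hn := hl h0 p q r s h1 h2 h3 h4 (ne h5) (ne h6) (ne h7) (ne h8) (ne h9)
    have hu1 : ∀ {w t : ℕ}, t < 10 → mem w [cd t p q, cd p t q, cd p q t] = true →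
        val M w → M.R p q t := by
      intro w t ht hw hv
      have := of_mem hw
      simp only [List.mem_cons, List.not_mem_nil, or_false] at this
      rcases this with rfl | rfl | rfl
      · rw [val_cd M (by omega) (by omega)] at hv
        exact M.s2 _ _ _ (M.s1 _ _ _ hv)
      · rw [val_cd M (by omega) (by omega)] at hv
        exact M.s2 _ _ _ hv
      · rwa [val_cd M (by omega) (by omega)] at hv
    by_cases hvu : val M u
    · refine valid_neg (v := v) (by simp [clause]) fun hv => hn ⟨hu1 h3 h10 hvu, hu1 h4 h11 hv⟩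
    · exact valid_neg (v := u) (by simp [clause]) hvu

/-- load the axioms and check the refutation -/
def run2 (units : List ℕ) (ln : Bool) (st : List (List ℕ × List ℕ × List ℕ)) :
    List Ax → Tr → ℕ → Bool
  | [], t, k => run t k st
  | x :: xs, t, k =>
    match check units ln x with
    | false => false
    | true => run2 units ln st xs (t.ins k (mask (clause x).1) (mask (clause x).2)) (k + 1)

theorem run2_sound (units : List ℕ) (ln : Bool) (hu : ∀ v ∈ units, val M v)
    (hl : ln = true → ∀ p q r s, p < q → q < 10 → r < 10 → s < 10 → r ≠ s → r ≠ p → r ≠ q →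
      s ≠ p → s ≠ q → ¬ (M.R p q r ∧ M.R p q s)) (st : List (List ℕ × List ℕ × List ℕ)) :
    ∀ (xs : List Ax) (t : Tr) (k : ℕ), (∀ i, Valid (val M) (t.get i)) →
      run2 units ln st xs t k = true → False := by
  intro xs
  induction xs with
  | nil => intro t k ht h; exact run_sound (val M) st t k ht h
  | cons x xs ih =>
    intro t k ht h
    rw [run2] at h
    cases hc : check units ln x with
    | false => simp [hc] at h
    | true =>
      simp only [hc] at h
      exact ih _ _ (Tr.get_ins_valid _ _ _ (check_valid M units ln hu hl x hc) t k ht) h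

end Pool.Agent.W2helper53.KH
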