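import Pool.Agent.W2helper53.KH.CertA
import Pool.Agent.W2helper53.KH.CertB

/-!
# Set systems without independent `k`-sets whose edges inside a `k`-set have a common point
-/

set_option autoImplicit false

namespace Pool.Agent.W2helper53.KH

variable {V : Type*} [DecidableEq V] [Fintype V]

/-- every `k`-set contains an edge (of size `k - 2`), and all edges inside a `k`-set have a common
point -/
structure Good (k : ℕ) (H : Finset V → Prop) : Prop where
  card : ∀ S, H S → S.card + 2 = k
  pos : ∀ C : Finset V, C.card = k → ∃ S ⊆ C, H S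
  neg : ∀ C : Finset V, C.card = k → ∃ y ∈ C, ∀ S ⊆ C, y ∉ S → ¬ H S

variable {H : Finset V → Prop}

theorem Good.common {k : ℕ} (h : Good k H) (hk : k ≤ Fintype.card V) (F : Finset V)
    (hF : F.card ≤ k) : ∃ y, ∀ S ⊆ F, H S → y ∈ S := by
  obtain ⟨C, h1, h2⟩ := Finset.exists_superset_card_eq hF (by simpa using hk)
  obtain ⟨y, -, hy⟩ := h.neg C h2
  refine ⟨y, fun S hS hH => ?_⟩
  by_contra hcon
  exact hy S (hS.trans h1) hcon hH

theorem Good.avoid {k : ℕ} (h : Good k H) (hk : k + 1 ≤ Fintype.card V) (a : V) :
    ∃ S, H S ∧ a ∉ S := by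
  have h1 : k ≤ (Finset.univ.erase a : Finset V).card := by
    rw [Finset.card_erase_of_mem (Finset.mem_univ a), Finset.card_univ]
    omega
  obtain ⟨C, h2, h3⟩ := Finset.exists_subset_card_eq h1
  obtain ⟨S, h4, h5⟩ := h.pos C h3
  exact ⟨S, h5, fun ha => absurd (h2 (h4 ha)) (Finset.notMem_erase a _)⟩

theorem no3 (h : Good 3 H) (hn : 4 ≤ Fintype.card V) : False := by
  have hne : Nonempty V := Fintype.card_pos_iff.1 (by omega)
  obtain ⟨a0⟩ := hne
  obtain ⟨S, hS, -⟩ := h.avoid hn a0
  have hS1 : S.card = 1 := by have := h.card S hS; omega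
  obtain ⟨a, rfl⟩ := Finset.card_eq_one.1 hS1
  obtain ⟨S', hS', ha⟩ := h.avoid hn a
  have hS1' : S'.card = 1 := by have := h.card S' hS'; omega
  obtain ⟨b, rfl⟩ := Finset.card_eq_one.1 hS1'
  obtain ⟨y, hy⟩ := h.common (by omega) ({a, b} : Finset V) (Finset.card_le_two.trans (by norm_num))
  have h1 := hy {a} (by simp) hS
  have h2 := hy {b} (by simp) hS'
  rw [Finset.mem_singleton] at h1 h2 ha
  exact ha (h1.symm.trans h2)

theorem no4 (h : Good 4 H) (hn : 5 ≤ Fintype.card V) : False := by
  have hne : Nonempty V := Fintype.card_pos_iff.1 (by omega)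
  obtain ⟨a0⟩ := hne
  have hcard : ∀ S, H S → S.card = 2 := fun S hS => by have := h.card S hS; omega
  have hinter : ∀ S S', H S → H S' → ∃ y, y ∈ S ∧ y ∈ S' := by
    intro S S' h1 h2
    have h3 : (S ∪ S').card ≤ 4 := by
      have := Finset.card_union_le S S'
      rw [hcard S h1, hcard S' h2] at this
      exact this
    obtain ⟨y, hy⟩ := h.common (by omega) (S ∪ S') h3
    exact ⟨y, hy S Finset.subset_union_left h1, hy S' Finset.subset_union_right h2⟩
  obtain ⟨S, hS, -⟩ := h.avoid hn a0
  obtain ⟨a, b, hab, rfl⟩ := Finset.card_eq_two.1 (hcard S hS)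
  obtain ⟨S1, hS1, ha⟩ := h.avoid hn a
  obtain ⟨S2, hS2, hb⟩ := h.avoid hn b
  have hb1 : b ∈ S1 := by
    obtain ⟨y, h1, h2⟩ := hinter _ _ hS hS1
    rw [Finset.mem_insert, Finset.mem_singleton] at h1
    rcases h1 with rfl | rfl
    · exact absurd h2 ha
    · exact h2
  have ha2 : a ∈ S2 := by
    obtain ⟨y, h1, h2⟩ := hinter _ _ hS hS2
    rw [Finset.mem_insert, Finset.mem_singleton] at h1
    rcases h1 with rfl | rfl
    · exact h2
    · exact absurd h2 hb
  obtain ⟨c, hc1, hc2⟩ := hinter _ _ hS1 hS2
  have hca : c ≠ a := fun h => ha (h ▸ hc1)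
  have hcb : c ≠ b := fun h => hb (h ▸ hc2)
  have e1 : ({b, c} : Finset V) = S1 := by
    refine Finset.eq_of_subset_of_card_le ?_ ?_
    · intro z hz
      rw [Finset.mem_insert, Finset.mem_singleton] at hz
      rcases hz with rfl | rfl
      · exact hb1
      · exact hc1
    · rw [hcard _ hS1, Finset.card_pair hcb.symm]
  have e2 : ({a, c} : Finset V) = S2 := by
    refine Finset.eq_of_subset_of_card_le ?_ ?_
    · intro z hz
      rw [Finset.mem_insert, Finset.mem_singleton] at hz
      rcases hz with rfl | rfl
      · exact ha2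
      · exact hc2
    · rw [hcard _ hS2, Finset.card_pair hca.symm]
  obtain ⟨y, hy⟩ := h.common (by omega) ({a, b, c} : Finset V)
    (Finset.card_le_three.trans (by norm_num))
  have h1 := hy {a, b} (by intro z; simp; tauto) hS
  have h2 := hy S1 (by rw [← e1]; intro z; simp; tauto) hS1
  have h3 := hy S2 (by rw [← e2]; intro z; simp; tauto) hS2
  rw [Finset.mem_insert, Finset.mem_singleton] at h1
  rcases h1 with rfl | rfl
  · exact ha h2
  · exact hb h3

theorem exists_enum (l : List V) (hl : l.Nodup) (h10 : 10 ≤ Fintype.card V) (a : V) :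
    ∃ x : ℕ → V, (∀ i j, i < 10 → j < 10 → x i = x j → i = j) ∧
      ∀ (i : ℕ) (h : i < l.length), x i = l[i] := by
  let L : List V := l ++ (Finset.univ \ l.toFinset).toList
  have hL : L.Nodup := by
    rw [List.nodup_append']
    refine ⟨hl, Finset.nodup_toList _, ?_⟩
    intro z hz hz'
    rw [Finset.mem_toList, Finset.mem_sdiff, List.mem_toFinset] at hz'
    exact hz'.2 hz
  have hlen : L.length = Fintype.card V := by
    rw [List.length_append, Finset.length_toList, Finset.card_sdiff_of_subset (Finset.subset_univ _),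
      List.toFinset_card_of_nodup hl, Finset.card_univ]
    have : l.length ≤ Fintype.card V := by
      rw [← List.toFinset_card_of_nodup hl]
      exact Finset.card_le_univ _
    omega
  refine ⟨fun i => L.getD i a, ?_, ?_⟩
  · intro i j hi hj h
    have h1 : i < L.length := by omega
    have h2 : j < L.length := by omega
    simp only [List.getD_eq_getElem _ _ h1, List.getD_eq_getElem _ _ h2] at h
    exact (hL.getElem_inj_iff).1 h
  · intro i h
    have h1 : i < L.length := by rw [List.length_append]; omega
    simp only [List.getD_eq_getElem _ _ h1]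
    exact List.getElem_append_left h

theorem fin5 : ∀ S : Finset (Fin 5), S.card = 3 → S = {0, 1, 2} ∨ S = {0, 1, 3} ∨ S = {0, 1, 4} ∨
    S = {0, 2, 3} ∨ S = {0, 2, 4} ∨ S = {0, 3, 4} ∨ S = {1, 2, 3} ∨ S = {1, 2, 4} ∨ S = {1, 3, 4} ∨
    S = {2, 3, 4} := by decide +kernel

/-- the triple system on ten points -/
def toModel (h : Good 5 H) (x : ℕ → V)
    (hx : ∀ i j, i < 10 → j < 10 → x i = x j → i = j) : Model where
  R a b c := H {x a, x b, x c}
  s1 a b c h := by rwa [Finset.insert_comm]
  s2 a b c h := by rwa [Finset.pair_comm]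
  pos a b c d e h1 h2 h3 h4 h5 := by
    let y : Fin 5 → V := ![x a, x b, x c, x d, x e]
    have hy : Function.Injective y := by
      have hne : ∀ i j, i < j → j < 10 → x i ≠ x j := fun i j hi hj he =>
        absurd (hx i j (by omega) hj he) (by omega)
      intro i j hij
      fin_cases i <;> fin_cases j <;> simp [y] at hij ⊢ <;>
        first
        | exact (hne _ _ (by omega) (by omega) hij).elim
        | exact (hne _ _ (by omega) (by omega) hij.symm).elim
    have hC : (Finset.univ.image y).card = 5 := by
      rw [Finset.card_image_of_injective _ hy]; rfl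
    obtain ⟨S, hS, hH⟩ := h.pos _ hC
    have e : S = (Finset.univ.filter fun i => y i ∈ S).image y := by
      ext z
      rw [Finset.mem_image]
      constructor
      · intro hz
        obtain ⟨i, -, rfl⟩ := Finset.mem_image.1 (hS hz)
        exact ⟨i, by simpa using hz, rfl⟩
      · rintro ⟨i, hi, rfl⟩
        simpa using hi
    have hc : (Finset.univ.filter fun i => y i ∈ S).card = 3 := by
      have h6 := h.card S hH
      rw [e, Finset.card_image_of_injective _ hy] at h6
      omega
    rw [e] at hH
    generalize (Finset.univ.filter fun i => y i ∈ S) = S' at hH hc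
    rcases fin5 S' hc with rfl | rfl | rfl | rfl | rfl | rfl | rfl | rfl | rfl | rfl <;>
      simp only [Finset.image_insert, Finset.image_singleton] at hH
    · exact Or.inl hH
    · exact Or.inr (Or.inl hH)
    · exact Or.inr (Or.inr (Or.inl hH))
    · exact Or.inr (Or.inr (Or.inr (Or.inl hH)))
    · exact Or.inr (Or.inr (Or.inr (Or.inr (Or.inl hH))))
    · exact Or.inr (Or.inr (Or.inr (Or.inr (Or.inr (Or.inl hH)))))
    · exact Or.inr (Or.inr (Or.inr (Or.inr (Or.inr (Or.inr (Or.inl hH))))))
    · exact Or.inr (Or.inr (Or.inr (Or.inr (Or.inr (Or.inr (Or.inr (Or.inl hH)))))))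
    · exact Or.inr (Or.inr (Or.inr (Or.inr (Or.inr (Or.inr (Or.inr (Or.inr (Or.inl hH))))))))
    · exact Or.inr (Or.inr (Or.inr (Or.inr (Or.inr (Or.inr (Or.inr (Or.inr (Or.inr hH))))))))
  neg a b c d e h1 h2 h3 h4 h5 := by
    have hne : ∀ i j, i < j → j < 10 → x i ≠ x j := fun i j hi hj he =>
      absurd (hx i j (by omega) hj he) (by omega)
    obtain ⟨y, hy⟩ := h.common (by
      have : ({x a, x b, x c, x d, x e} : Finset V).card ≤ Fintype.card V := Finset.card_le_univ _
      have h6 : ({x a, x b, x c, x d, x e} : Finset V).card = 5 := by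
        rw [Finset.card_insert_of_notMem, Finset.card_insert_of_notMem,
          Finset.card_insert_of_notMem, Finset.card_pair]
        · exact hne _ _ (by omega) (by omega)
        · simp [hne c d (by omega) (by omega), hne c e (by omega) (by omega)]
        · simp [hne b c (by omega) (by omega), hne b d (by omega) (by omega),
            hne b e (by omega) (by omega)]
        · simp [hne a b (by omega) (by omega), hne a c (by omega) (by omega),
            hne a d (by omega) (by omega), hne a e (by omega) (by omega)]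
      omega) ({x a, x b, x c, x d, x e} : Finset V) Finset.card_le_five
    have hab := hne a b (by omega) (by omega)
    have hac := hne a c (by omega) (by omega)
    have had := hne a d (by omega) (by omega)
    have hae := hne a e (by omega) (by omega)
    have hbc := hne b c (by omega) (by omega)
    have hbd := hne b d (by omega) (by omega)
    have hbe := hne b e (by omega) (by omega)
    have hcd := hne c d (by omega) (by omega)
    have hce := hne c e (by omega) (by omega)
    have hde := hne d e (by omega) (by omega)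
    have key : ∀ p q r : V, p ∈ ({x a, x b, x c, x d, x e} : Finset V) →
        q ∈ ({x a, x b, x c, x d, x e} : Finset V) → r ∈ ({x a, x b, x c, x d, x e} : Finset V) →
        y ≠ p → y ≠ q → y ≠ r → ¬ H {p, q, r} := by
      intro p q r hs1 hs2 hs3 hp hq hr hH
      have := hy _ (by
        intro z hz
        rw [Finset.mem_insert, Finset.mem_insert, Finset.mem_singleton] at hz
        rcases hz with rfl | rfl | rfl
        · exact hs1
        · exact hs2
        · exact hs3) hH
      simp only [Finset.mem_insert, Finset.mem_singleton] at this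
      tauto
    have ma : x a ∈ ({x a, x b, x c, x d, x e} : Finset V) := by simp
    have mb : x b ∈ ({x a, x b, x c, x d, x e} : Finset V) := by simp
    have mc : x c ∈ ({x a, x b, x c, x d, x e} : Finset V) := by simp
    have md : x d ∈ ({x a, x b, x c, x d, x e} : Finset V) := by simp
    have me : x e ∈ ({x a, x b, x c, x d, x e} : Finset V) := by simp
    by_cases ha : y = x a
    · left
      subst ha
      exact ⟨key _ _ _ mb mc md hab hac had, key _ _ _ mb mc me hab hac hae,
        key _ _ _ mb md me hab had hae, key _ _ _ mc md me hac had hae⟩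
    by_cases hb : y = x b
    · right; left
      subst hb
      exact ⟨key _ _ _ ma mc md ha hbc hbd, key _ _ _ ma mc me ha hbc hbe,
        key _ _ _ ma md me ha hbd hbe, key _ _ _ mc md me hbc hbd hbe⟩
    by_cases hc : y = x c
    · right; right; left
      subst hc
      exact ⟨key _ _ _ ma mb md ha hb hcd, key _ _ _ ma mb me ha hb hce,
        key _ _ _ ma md me ha hcd hce, key _ _ _ mb md me hb hcd hce⟩
    by_cases hd : y = x d
    · right; right; right; left
      subst hd
      exact ⟨key _ _ _ ma mb mc ha hb hc, key _ _ _ ma mb me ha hb hde,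
        key _ _ _ ma mc me ha hc hde, key _ _ _ mb mc me hb hc hde⟩
    · right; right; right; right
      exact ⟨key _ _ _ ma mb mc ha hb hc, key _ _ _ ma mb md ha hb hd,
        key _ _ _ ma mc md ha hc hd, key _ _ _ mb mc md hb hc hd⟩

theorem no5 (h : Good 5 H) (hn : 10 ≤ Fintype.card V) : False := by
  have hne : Nonempty V := Fintype.card_pos_iff.1 (by omega)
  obtain ⟨a0⟩ := hne
  have hcard : ∀ S, H S → S.card = 3 := fun S hS => by have := h.card S hS; omega
  by_cases hc : ∃ a b c d : V, [a, b, c, d].Nodup ∧ H {a, b, c} ∧ H {a, b, d}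
  · obtain ⟨a, b, c, d, hnd, h1, h2⟩ := hc
    obtain ⟨x, hx, hx'⟩ := exists_enum [a, b, c, d] hnd hn a0
    have x0 : x 0 = a := hx' 0 (by simp)
    have x1 : x 1 = b := hx' 1 (by simp)
    have x2 : x 2 = c := hx' 2 (by simp)
    have x3 : x 3 = d := hx' 3 (by simp)
    refine run2_sound (toModel h x hx) [12, 13] false ?_ (by simp) ca_S ca_A .nil 0
      (fun i => by rw [Pool.Agent.H171R2.Rup.Tr.get]; exact Pool.Agent.H171R2.Rup.valid_taut _) ca_ok
    intro v hv
    simp only [List.mem_cons, List.not_mem_nil, or_false] at hv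
    rcases hv with rfl | rfl
    · change H {x 0, x 1, x 2}
      rwa [x0, x1, x2]
    · change H {x 0, x 1, x 3}
      rwa [x0, x1, x3]
  · obtain ⟨S, hS, -⟩ := h.avoid (by omega) a0
    obtain ⟨a, b, c, hab, hac, hbc, rfl⟩ := Finset.card_eq_three.1 (hcard S hS)
    obtain ⟨x, hx, hx'⟩ := exists_enum [a, b, c] (by simp [hab, hac, hbc]) hn a0
    have x0 : x 0 = a := hx' 0 (by simp)
    have x1 : x 1 = b := hx' 1 (by simp)
    have x2 : x 2 = c := hx' 2 (by simp)
    refine run2_sound (toModel h x hx) [12] true ?_ ?_ cb_S cb_A .nil 0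
      (fun i => by rw [Pool.Agent.H171R2.Rup.Tr.get]; exact Pool.Agent.H171R2.Rup.valid_taut _) cb_ok
    · intro v hv
      simp only [List.mem_cons, List.not_mem_nil, or_false] at hv
      rcases hv with rfl
      change H {x 0, x 1, x 2}
      rwa [x0, x1, x2]
    · rintro - p q r s h1 h2 h3 h4 h5 h6 h7 h8 h9 ⟨h10, h11⟩
      apply hc
      have ne : ∀ i j, i < 10 → j < 10 → i ≠ j → x i ≠ x j := fun i j hi hj h h' =>
        h (hx i j hi hj h')
      refine ⟨x p, x q, x r, x s, ?_, h10, h11⟩
      simp [ne p q (by omega) h2 (by omega), ne p r (by omega) h3 h6.symm,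
        ne p s (by omega) h4 h8.symm, ne q r h2 h3 h7.symm, ne q s h2 h4 h9.symm, ne r s h3 h4 h5]

end Pool.Agent.W2helper53.KH
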